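import Pool.Agent.Lib.MP_305fdd_al.Fr.N.A.Defs

/-!
# MP_305fdd_al, surface groups, block (TR): transfer of polynomials of Cartier modules, definitions

Characteristic two.  `Comp φ J` says that `φ : B → R` is (isomorphic to) the completion of the
Noetherian ring `B` at the ideal `J`.  For a `2⁻¹`-linear map `Φ` of an overring `L` of `A` the
module `DD A h` is `{f | f u ∈ A for all u with Φ (u A) ⊆ A}`; it is stable under `Φ` and depends
only on `A` (up to the choice of `Φ`, a generator of the module of the `2⁻¹`-linear maps).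
-/

set_option autoImplicit false

namespace Pool.Agent.SuTR

open Pool.Agent.FrN Pool.Agent.FrNA Pool.Agent.F2Ch

/-! ## Completions -/

/-- `φ : B → R` is the completion of `B` at `J`; the last condition is the flatness of `R` over `B`
(every relation with coefficients in `B` comes from relations in `B`). -/
structure Comp {B R : Type} [CommRing B] [CommRing R] (φ : B →+* R) (J : Ideal B) : Prop where
  noeth : IsNoetherianRing R
  dense : ∀ (n : ℕ) (r : R), ∃ b, r - φ b ∈ (J.map φ) ^ n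
  top : ∀ (n : ℕ) (b : B), φ b ∈ (J.map φ) ^ n → b ∈ J ^ n
  sep : ∀ r : R, (∀ n, r ∈ (J.map φ) ^ n) → r = 0
  cpl : ∀ s : ℕ → B, (∀ n, s (n + 1) - s n ∈ J ^ n) →
    ∃ r : R, ∀ n, r - φ (s n) ∈ (J.map φ) ^ n
  flat : ∀ (n : ℕ) (b : Fin n → B) (r : Fin n → R), ∑ i, r i * φ (b i) = 0 →
    ∃ (m : ℕ) (s : Fin m → R) (c : Fin m → Fin n → B),
      (∀ i, r i = ∑ j, s j * φ (c j i)) ∧ ∀ j, ∑ i, c j i * b i = 0

/-- the product of the ideals `(b ^ (2 ^ k) - b)`, `1 ≤ k ≤ d` (the closed points of degree `≤ d`) -/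
noncomputable def Jd (d : ℕ) (B : Type) [CommRing B] : Ideal B :=
  ∏ k ∈ Finset.Icc 1 d, frI 2 k B

/-! ## Canonical modules -/

section mod

variable {A L : Type} [CommRing A] [CommRing L] [Algebra A L]

/-- additive and `2⁻¹`-linear -/
structure PL (Φ : L → L) : Prop where
  add : ∀ x y, Φ (x + y) = Φ x + Φ y
  sq : ∀ a b, Φ (a ^ 2 * b) = a * Φ b

theorem PL.zero {Φ : L → L} (h : PL Φ) : Φ 0 = 0 := by
  have := h.add 0 0
  rw [add_zero] at this
  exact left_eq_add.1 this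

theorem PL.smul_sq {Φ : L → L} (h : PL Φ) (a : A) (x : L) : Φ (a ^ 2 • x) = a • Φ x := by
  rw [Algebra.smul_def, map_pow, h.sq, ← Algebra.smul_def]

/-- the elements `u` with `Φ (u A) ⊆ A` -/
def HH (A : Type) {L : Type} [CommRing A] [CommRing L] [Algebra A L] {Φ : L → L} (h : PL Φ) :
    Submodule A L where
  carrier := {u | ∀ a : A, ∃ b : A, Φ (u * algebraMap A L a) = algebraMap A L b}
  zero_mem' a := ⟨0, by rw [zero_mul, h.zero, map_zero]⟩
  add_mem' := by
    intro u v hu hv a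
    obtain ⟨b, hb⟩ := hu a
    obtain ⟨c, hc⟩ := hv a
    exact ⟨b + c, by rw [add_mul, h.add, hb, hc, map_add]⟩
  smul_mem' := by
    intro c u hu a
    obtain ⟨b, hb⟩ := hu (c * a)
    refine ⟨b, ?_⟩
    rw [← hb, Algebra.smul_def, map_mul]
    congr 1
    ring

/-- the elements `f` with `f u ∈ A` for all `u ∈ HH A h` -/
def DD (A : Type) {L : Type} [CommRing A] [CommRing L] [Algebra A L] {Φ : L → L} (h : PL Φ) :
    Submodule A L where
  carrier := {f | ∀ u ∈ HH A h, ∃ b : A, u * f = algebraMap A L b}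
  zero_mem' u _ := ⟨0, by rw [mul_zero, map_zero]⟩
  add_mem' := by
    intro f g hf hg u hu
    obtain ⟨b, hb⟩ := hf u hu
    obtain ⟨c, hc⟩ := hg u hu
    exact ⟨b + c, by rw [mul_add, hb, hc, map_add]⟩
  smul_mem' := by
    intro c f hf u hu
    obtain ⟨b, hb⟩ := hf u hu
    refine ⟨c * b, ?_⟩
    rw [Algebra.smul_def, map_mul, ← hb]
    ring

/-- `{f | I f ⊆ M}` -/
def Col (I : Ideal A) (M : Submodule A L) : Submodule A L where
  carrier := {f | ∀ a ∈ I, a • f ∈ M}
  zero_mem' a _ := by rw [smul_zero]; exact M.zero_mem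
  add_mem' := by
    intro f g hf hg a ha
    rw [smul_add]
    exact M.add_mem (hf a ha) (hg a ha)
  smul_mem' := by
    intro c f hf a ha
    rw [smul_comm]
    exact M.smul_mem c (hf a ha)

/-- `M` is stable under `Φ` -/
def St (Φ : L → L) (M : Submodule A L) : Prop := ∀ x ∈ M, Φ x ∈ M

/-- the module `Φ M` -/
def Pw {Φ : L → L} (h : PL Φ) (M : Submodule A L) : Submodule A L where
  carrier := {y | ∃ x ∈ M, Φ x = y}
  zero_mem' := ⟨0, M.zero_mem, h.zero⟩
  add_mem' := by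
    rintro _ _ ⟨x, hx, rfl⟩ ⟨y, hy, rfl⟩
    exact ⟨x + y, M.add_mem hx hy, h.add x y⟩
  smul_mem' := by
    rintro c _ ⟨x, hx, rfl⟩
    exact ⟨c ^ 2 • x, M.smul_mem _ hx, h.smul_sq c x⟩

/-- the smallest `Φ`-stable submodule which contains `M` -/
def HL {Φ : L → L} (h : PL Φ) (M : Submodule A L) : Submodule A L := ⨆ e : ℕ, (Pw h)^[e] M

/-- the smallest stable module which contains `I₁ f` for all `f` with `I₂ ^ j f ⊆ DD A h` -/
def FF {Φ : L → L} (h : PL Φ) (I₁ I₂ : Ideal A) (j : ℕ) : Submodule A L :=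
  HL h (I₁ • Col (I₂ ^ j) (DD A h))

theorem mem_HH {Φ : L → L} {h : PL Φ} {u : L} :
    u ∈ HH A h ↔ ∀ a : A, ∃ b : A, Φ (u * algebraMap A L a) = algebraMap A L b := Iff.rfl

theorem mem_DD {Φ : L → L} {h : PL Φ} {f : L} :
    f ∈ DD A h ↔ ∀ u ∈ HH A h, ∃ b : A, u * f = algebraMap A L b := Iff.rfl

theorem mem_Col {I : Ideal A} {M : Submodule A L} {f : L} :
    f ∈ Col I M ↔ ∀ a ∈ I, a • f ∈ M := Iff.rfl

theorem mem_Pw {Φ : L → L} {h : PL Φ} {M : Submodule A L} {y : L} :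
    y ∈ Pw h M ↔ ∃ x ∈ M, Φ x = y := Iff.rfl

theorem Pw_mono {Φ : L → L} (h : PL Φ) {M N : Submodule A L} (hMN : M ≤ N) :
    Pw h M ≤ Pw h N := by
  rintro y ⟨x, hx, rfl⟩
  exact ⟨x, hMN hx, rfl⟩

theorem Pw_iterate_mono {Φ : L → L} (h : PL Φ) {M N : Submodule A L} (hMN : M ≤ N) (e : ℕ) :
    (Pw h)^[e] M ≤ (Pw h)^[e] N := by
  induction e with
  | zero => exact hMN
  | succ e ih =>
    rw [Function.iterate_succ_apply', Function.iterate_succ_apply']
    exact Pw_mono h ih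

/-- `DD A h` is stable -/
theorem St_DD {Φ : L → L} (h : PL Φ) : St Φ (DD A h) := by
  intro f hf u hu
  obtain ⟨b, hb⟩ := hf u hu
  obtain ⟨c, hc⟩ := hu b
  refine ⟨c, ?_⟩
  rw [← hc, ← hb, ← h.sq]
  congr 1
  ring

theorem St_Col {Φ : L → L} (h : PL Φ) {M : Submodule A L} (hM : St Φ M) (I : Ideal A) :
    St Φ (Col I M) := by
  intro f hf a ha
  rw [← h.smul_sq]
  exact hM _ (hf _ (by rw [pow_two]; exact I.mul_mem_left _ ha))

theorem le_HL {Φ : L → L} (h : PL Φ) (M : Submodule A L) : M ≤ HL h M :=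
  le_iSup (fun e : ℕ => (Pw h)^[e] M) 0

theorem St_HL {Φ : L → L} (h : PL Φ) (M : Submodule A L) : St Φ (HL h M) := by
  intro x hx
  refine Submodule.iSup_induction (fun e : ℕ => (Pw h)^[e] M) (motive := fun x => Φ x ∈ HL h M)
    hx ?_ ?_ ?_
  · intro e x hx
    refine le_iSup (fun e : ℕ => (Pw h)^[e] M) (e + 1) ?_
    rw [Function.iterate_succ_apply']
    exact ⟨x, hx, rfl⟩
  · rw [h.zero]
    exact (HL h M).zero_mem
  · intro x y hx hy
    rw [h.add]
    exact (HL h M).add_mem hx hy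

theorem HL_le {Φ : L → L} (h : PL Φ) {M N : Submodule A L} (hM : M ≤ N) (hN : St Φ N) :
    HL h M ≤ N := by
  refine iSup_le fun e => ?_
  induction e with
  | zero => exact hM
  | succ e ih =>
    rw [Function.iterate_succ_apply']
    rintro _ ⟨x, hx, rfl⟩
    exact hN x (ih hx)

/-- a stable module with the trivial ideal: nothing is added -/
theorem FF_top {Φ : L → L} (h : PL Φ) (I : Ideal A) (j : ℕ) :
    FF h ⊤ I j = Col (I ^ j) (DD A h) := by
  unfold FF
  rw [Submodule.top_smul]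
  exact le_antisymm (HL_le h le_rfl (St_Col h (St_DD h) _)) (le_HL h _)

theorem St_FF {Φ : L → L} (h : PL Φ) (I₁ I₂ : Ideal A) (j : ℕ) : St Φ (FF h I₁ I₂ j) :=
  St_HL h _

end mod

/-! ## Cartier modules -/

/-- a stable submodule as a Cartier module -/
def toX {A L : Type} [CommRing A] [CommRing L] [Algebra A L] [Algebra (ZMod 2) A]
    [Algebra (ZMod 2) L] [IsScalarTower (ZMod 2) A L] {Φ : L → L} (h : PL Φ)
    (M : Submodule A L) (hM : St Φ M) : CMod 2 A where
  M := M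
  C :=
    { toFun := fun x => ⟨Φ x.1, hM x.1 x.2⟩
      map_add' := fun x y => Subtype.ext (h.add x.1 y.1)
      map_smul' := fun c x => Subtype.ext (by
        change Φ (c • x.1) = c • Φ x.1
        have hc : ∀ c : ZMod 2, c = 0 ∨ c = 1 := by decide
        rcases hc c with rfl | rfl
        · rw [zero_smul, zero_smul, h.zero]
        · rw [one_smul, one_smul]) }
  hC b m := Subtype.ext (h.smul_sq b m.1)

/-- dual bases with respect to `Φ (x y)` -/
structure DB {K ι : Type} [Field K] [Fintype ι] (Φ : K → K) (t u : ι → K) : Prop where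
  d1 : ∀ x, x = ∑ a, Φ (x * t a) ^ 2 * u a
  d2 : ∀ x, x = ∑ a, Φ (x * u a) ^ 2 * t a

end Pool.Agent.SuTR
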