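import Pool.Agent.Lib.MP_305fdd_al.Su.TR.Cmp
import Pool.Agent.Lib.MP_305fdd_al.Su.Min.L

/-!
# MP_305fdd_al, surface groups, block (TR): colon modules of the smallest stable module

`B`, `B'` have the same completions, with the ideals `I`, `I'`.  The polynomials of the modules
`(M : I)`, `(M' : I')` agree, where `M`, `M'` are the smallest stable modules.
-/

set_option autoImplicit false

namespace Pool.Agent.SuTR

open Pool.Agent.FrN Pool.Agent.FrNA Pool.Agent.F2Ch Pool.Agent.FrNE Pool.Agent.SuInd Pool.Agent.F2RF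

/-- the two rings have the same completions at the ideals `Jd d`, and there `I` and `I'` generate the
same ideal -/
def SameI {B B' : Type} [CommRing B] [CommRing B'] (I : Ideal B) (I' : Ideal B') : Prop :=
  ∀ d : ℕ, ∃ (R : Type) (_ : CommRing R) (φ : B →+* R) (φ' : B' →+* R),
    Comp φ (Jd d B) ∧ Comp φ' (Jd d B') ∧ (Jd d B).map φ = (Jd d B').map φ' ∧
      I.map φ = I'.map φ'

theorem SameI.pow {B B' : Type} [CommRing B] [CommRing B'] {I : Ideal B} {I' : Ideal B'}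
    (h : SameI I I') (n : ℕ) : SameI (I ^ n) (I' ^ n) := fun d => by
  obtain ⟨R, _, φ, φ', h1, h2, h3, h4⟩ := h d
  exact ⟨R, _, φ, φ', h1, h2, h3, by rw [Ideal.map_pow, Ideal.map_pow, h4]⟩

section

variable {K K' : Type} [Field K] [Field K'] [Algebra (ZMod 2) K] [Algebra (ZMod 2) K']
  {B : Subalgebra (ZMod 2) K} {B' : Subalgebra (ZMod 2) K'}

theorem PL_of {K : Type} [Field K] {Φ : K → K} (h : IsPinv 2 Φ) : PL Φ := ⟨h.add, h.pow_mul⟩

theorem Stb_Col {Φ : K → K} (h : IsPinv 2 Φ) {M : Submodule B K} (hM : Stb Φ M) (I : Ideal B) :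
    Stb Φ (Col I M) := St_Col (PL_of h) hM I

theorem FG_Col' (hB : B.FG) {M : Submodule B K} (hM : M.FG) {I : Ideal B} (hI : I ≠ ⊥) :
    (Col I M).FG := by
  have hft := ft_of_fg hB
  have hn : IsNoetherianRing B := noeth (p := 2)
  obtain ⟨a, ha, hne⟩ := Submodule.exists_mem_ne_zero_of_ne_bot hI
  exact FG_Col hM ha fun e => hne (Subtype.ext e)

theorem amb_of (hF : Frc B) {R L : Type} [CommRing R] [CommRing L] [Algebra R L]
    [IsFractionRing R L] [Algebra K L] {φ : B →+* R} {J : Ideal B} (hc : Comp φ J)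
    (hj : ∀ b : B, algebraMap K L b = algebraMap R L (φ b)) : Amb φ K L := by
  refine ⟨Subtype.val_injective, fun x => ?_, IsFractionRing.injective R L,
    fun a => (hj a).symm, hc.flat⟩
  obtain ⟨a, ha, b, hb, hb0, hab⟩ := hF x
  exact ⟨⟨a, ha⟩, ⟨b, hb⟩, hb0, hab⟩

theorem cdat (hB : B.FG) (hF : Frc B) (hB' : B'.FG) (hF' : Frc B') {Φ : K → K} {Φ' : K' → K'}
    (hΦ : LogTy 2 Φ) (hΦ' : LogTy 2 Φ') (h : IsPinv 2 Φ) (h' : IsPinv 2 Φ') {I : Ideal B}
    {I' : Ideal B'} (hs : SameI I I') {M : Submodule B K} {M' : Submodule B' K'}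
    (hM : IsOm B Φ M) (hM' : IsOm B' Φ' M') (d : ℕ) :
    CDat Φ Φ' M M' I I' (JJ 2 d B) (JJ 2 d B') := by
  obtain ⟨R, _, φ, φ', hc, hc', hJ, hII⟩ := hs d
  obtain ⟨L, _, _, _⟩ : ∃ (L : Type) (_ : CommRing L) (_ : Algebra R L), IsFractionRing R L :=
    ⟨FractionRing R, inferInstance, inferInstance, inferInstance⟩
  let algR : Algebra (ZMod 2) R := (φ.comp (algebraMap (ZMod 2) B)).toAlgebra
  let alg : Algebra (ZMod 2) L :=
    ((algebraMap R L).comp (φ.comp (algebraMap (ZMod 2) B))).toAlgebra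
  have hst : IsScalarTower (ZMod 2) R L := IsScalarTower.of_algebraMap_eq fun _ => rfl
  obtain ⟨jK, hj⟩ := SuMin.exists_jK (L := L) hF hc
  obtain ⟨jK', hj'⟩ := SuMin.exists_jK (L := L) hF' hc'
  obtain ⟨ΦL, hL, hLe, ⟨C, n, a, b, hC, hd⟩, hm⟩ := SuMin.exists_L hB hF hc hΦ h jK hj
  obtain ⟨ΦL', hL', hLe', ⟨C', n', a', b', hC', hd'⟩, hm'⟩ :=
    SuMin.exists_L hB' hF' hc' hΦ' h' jK' hj'
  obtain ⟨u, hu, hue⟩ := SuMin.exists_unit hL' hL hC' hC hd' hd
  obtain ⟨m1, ⟨v, hv, hvu⟩, m3⟩ := hm M hM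
  obtain ⟨m1', ⟨v', hv', hvu'⟩, m3'⟩ := hm' M' hM'
  obtain ⟨w, hw⟩ := hu.exists_right_inv
  have hwu : w * u = 1 := by rw [mul_comm]; exact hw
  have hcm : ∀ (x y : L) (S : Submodule R L),
      y ∈ S.comap (LinearMap.mulLeft R x) ↔ x * y ∈ S := fun x y S => Iff.rfl
  have h1 : Submodule.span R (jK' '' M') ≤
      (Submodule.span R (jK '' M)).comap (LinearMap.mulLeft R u) := by
    refine m3' _ (fun y hy => ?_) ⟨w * v, ?_, ?_⟩
    · rw [hcm] at hy ⊢
      rw [← hue]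
      exact m1 _ hy
    · rw [hcm, ← mul_assoc, hw, one_mul]
      exact hv
    · exact (IsUnit.of_mul_eq_one u hwu).mul hvu
  have h2 : Submodule.span R (jK '' M) ≤
      (Submodule.span R (jK' '' M')).comap (LinearMap.mulLeft R w) := by
    refine m3 _ (fun y hy => ?_) ⟨u * v', ?_, hu.mul hvu'⟩
    · rw [hcm] at hy ⊢
      have e : w * ΦL y = ΦL' (w * y) := by
        have e1 := hue (w * y)
        rw [← mul_assoc, hw, one_mul] at e1
        rw [e1, ← mul_assoc, hwu, one_mul]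
      rw [e]
      exact m1' _ hy
    · rw [hcm, ← mul_assoc, hwu, one_mul]
      exact hv'
  let aK : Algebra K L := jK.toAlgebra
  let aK' : Algebra K' L := jK'.toAlgebra
  refine ⟨R, L, inferInstance, inferInstance, algR, alg, inferInstance, hst, aK, aK', φ, φ', ΦL,
    ΦL', hu.unit, amb_of hF hc hj, amb_of hF' hc' hj', hc, hc', hJ, hII, ⟨hL.add, hL.pow_mul⟩,
    hLe, hLe', hue, m1, fun y => ⟨fun hy => ?_, fun hy => h1 hy⟩⟩
  have h3 : w * (u * y) ∈ Submodule.span R (jK' '' M') := h2 hy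
  rwa [← mul_assoc, hwu, one_mul] at h3

/-- COMPARISON of the colon modules of the smallest stable modules -/
theorem PF_col (hB : B.FG) (hF : Frc B) (hB' : B'.FG) (hF' : Frc B') {Φ : K → K} {Φ' : K' → K'}
    (hΦ : LogTy 2 Φ) (hΦ' : LogTy 2 Φ') (h : IsPinv 2 Φ) (h' : IsPinv 2 Φ') {I : Ideal B}
    {I' : Ideal B'} (hI : I ≠ ⊥) (hI' : I' ≠ ⊥) (hs : SameI I I') {M : Submodule B K}
    {M' : Submodule B' K'} (hM : IsOm B Φ M) (hM' : IsOm B' Φ' M') :
    PF h (Col I M) = PF h' (Col I' M') := by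
  have hft := ft_of_fg hB
  have hft' := ft_of_fg hB'
  obtain ⟨N, hN, hNf⟩ := SuMin.exists_om hB hF hΦ h
  obtain ⟨N', hN', hNf'⟩ := SuMin.exists_om hB' hF' hΦ' h'
  obtain rfl := SuMin.IsOm.eq hM hN
  obtain rfl := SuMin.IsOm.eq hM' hN'
  rw [SuMin.PF_toC hB h _ (Stb_Col h hM.stb I) (FG_Col' hB hNf hI),
    SuMin.PF_toC hB' h' _ (Stb_Col h' hM'.stb I') (FG_Col' hB' hNf' hI')]
  exact col_cmp (PL_of h) (PL_of h') hNf hNf' hI hI' (Stb_Col h hM.stb I)
    (Stb_Col h' hM'.stb I') (cdat hB hF hB' hF' hΦ hΦ' h h' hs hM hM')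

end

end Pool.Agent.SuTR
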