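import Pool.Agent.Lib.MP_305fdd_al.Su.TR.Pro
import Pool.Agent.Lib.MP_305fdd_al.Su.Ind.Cmp

/-!
# MP_305fdd_al, surface groups, block (TR): comparison of colon modules
-/

set_option autoImplicit false

namespace Pool.Agent.SuTR

open Pool.Agent.FrN Pool.Agent.FrNA Pool.Agent.F2Ch Pool.Agent.FrNE Pool.Agent.SuInd

section

variable {A A' K K' : Type} [CommRing A] [CommRing A'] [Field K] [Field K'] [Algebra A K]
  [Algebra A' K']

/-- The completions `φ : A → R`, `φ' : A' → R` (at `J`, `J'`) are the same ring, `Φ` and `Φ'` extend to the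
overring `L` of `R`, `K` and `K'`, and the multiplication by the unit `u` of `L` identifies the pairs
`(R M', Φ')` and `(R M, Φ)`; `I` and `I'` generate the same ideal of `R`. -/
def CDat (Φ : K → K) (Φ' : K' → K') (M : Submodule A K) (M' : Submodule A' K') (I : Ideal A)
    (I' : Ideal A') (J : Ideal A) (J' : Ideal A') : Prop :=
  ∃ (R L : Type) (_ : CommRing R) (_ : CommRing L) (_ : Algebra (ZMod 2) R)
    (_ : Algebra (ZMod 2) L) (_ : Algebra R L) (_ : IsScalarTower (ZMod 2) R L) (_ : Algebra K L)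
    (_ : Algebra K' L) (φ : A →+* R) (φ' : A' →+* R) (ΦL ΦL' : L → L) (u : Lˣ),
    Amb φ K L ∧ Amb φ' K' L ∧ Comp φ J ∧ Comp φ' J' ∧ J.map φ = J'.map φ' ∧
    I.map φ = I'.map φ' ∧ PL ΦL ∧ (∀ x : K, ΦL (algebraMap K L x) = algebraMap K L (Φ x)) ∧
    (∀ x : K', ΦL' (algebraMap K' L x) = algebraMap K' L (Φ' x)) ∧
    (∀ x, ΦL (u * x) = u * ΦL' x) ∧ St ΦL (Ex L φ M) ∧
    ∀ y, (u : L) * y ∈ Ex L φ M ↔ y ∈ Ex L φ' M'

theorem FG_Col [IsNoetherianRing A] {M : Submodule A K} (hM : M.FG) {I : Ideal A} {a : A}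
    (ha : a ∈ I) (h0 : algebraMap A K a ≠ 0) : (Col I M).FG := by
  have hn : IsNoetherian A M := isNoetherian_of_fg_of_noetherian M hM
  let f : Col I M →ₗ[A] M :=
    { toFun := fun x => ⟨a • x.1, x.2 a ha⟩
      map_add' := fun x y => Subtype.ext (smul_add _ _ _)
      map_smul' := fun c x => Subtype.ext (smul_comm _ _ _) }
  have hf : Function.Injective f := by
    intro x y hxy
    have h1 : a • x.1 = a • y.1 := congrArg Subtype.val hxy
    rw [Algebra.smul_def, Algebra.smul_def] at h1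
    exact Subtype.ext (mul_left_cancel₀ h0 h1)
  have h2 : IsNoetherian A (Col I M) := isNoetherian_of_injective f hf
  have h3 := h2.noetherian ⊤
  exact (Module.Finite.iff_fg (N := Col I M)).1 ⟨h3⟩

theorem FG_Ex {R : Type} [CommRing R] {φ : A →+* R} {L : Type} [CommRing L] [Algebra R L]
    [Algebra K L] (h : Amb φ K L) {M : Submodule A K} (hM : M.FG) : (Ex L φ M).FG := by
  classical
  obtain ⟨S, hS⟩ := hM
  refine ⟨S.image (algebraMap K L), ?_⟩
  apply le_antisymm
  · refine Submodule.span_mono ?_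
    rw [Finset.coe_image]
    refine Set.image_mono ?_
    rw [← hS]
    exact Submodule.subset_span
  · refine Submodule.span_le.2 ?_
    rintro _ ⟨x, hx, rfl⟩
    have hx' : x ∈ Submodule.span A (S : Set K) := by rw [hS]; exact hx
    refine Submodule.span_induction (p := fun x _ => algebraMap K L x ∈
      Submodule.span R ((S.image (algebraMap K L) : Finset L) : Set L)) ?_ ?_ ?_ ?_ hx'
    · intro x hx
      refine Submodule.subset_span ?_
      rw [Finset.coe_image]
      exact ⟨x, hx, rfl⟩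
    · rw [map_zero]
      exact Submodule.zero_mem _
    · intro x y _ _ hx hy
      rw [map_add]
      exact Submodule.add_mem _ hx hy
    · intro a x _ hx
      rw [Algebra.smul_def, map_mul, ← h.comm, ← Algebra.smul_def]
      exact Submodule.smul_mem _ _ hx

/-- `Pro` and isomorphisms -/
theorem pro_equiv {R : Type} [CommRing R] {φ : A →+* R} {𝔞 : Ideal A} {𝔪 : Ideal R}
    {M N N' : Type} [AddCommGroup M] [Module A M] [AddCommGroup N] [Module R N]
    [AddCommGroup N'] [Module R N'] {ι : M →+ N} (h : Pro φ 𝔞 𝔪 ι) (e : N ≃ₗ[R] N') :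
    Pro φ 𝔞 𝔪 (e.toLinearMap.toAddMonoidHom.comp ι) where
  lin a x := by
    change e (ι (a • x)) = φ a • e (ι x)
    rw [h.lin, map_smul]
  dense j y := by
    obtain ⟨x, hx⟩ := h.dense j (e.symm y)
    refine ⟨x, ?_⟩
    have h1 : y - (e.toLinearMap.toAddMonoidHom.comp ι) x = e (e.symm y - ι x) := by
      rw [map_sub, LinearEquiv.apply_symm_apply]
      rfl
    rw [h1]
    have h2 := Submodule.mem_map_of_mem (f := e.toLinearMap) hx
    rw [Submodule.map_smul''] at h2
    exact Submodule.smul_mono le_rfl le_top h2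
  top j := by
    obtain ⟨N₀, hN⟩ := h.top j
    refine ⟨N₀, fun x hx => hN x ?_⟩
    have h2 := Submodule.mem_map_of_mem (f := e.symm.toLinearMap) hx
    rw [Submodule.map_smul''] at h2
    have h3 : e.symm.toLinearMap ((e.toLinearMap.toAddMonoidHom.comp ι) x) = ι x := by
      change e.symm (e (ι x)) = ι x
      rw [LinearEquiv.symm_apply_apply]
    rw [h3] at h2
    exact Submodule.smul_mono le_rfl le_top h2

/-- COMPARISON of the colon modules `(M : I)` and `(M' : I')`. -/
theorem col_cmp [Algebra (ZMod 2) A] [Algebra (ZMod 2) A'] [Algebra (ZMod 2) K]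
    [Algebra (ZMod 2) K'] [IsScalarTower (ZMod 2) A K] [IsScalarTower (ZMod 2) A' K']
    [Algebra.FiniteType (ZMod 2) A] [Algebra.FiniteType (ZMod 2) A'] {Φ : K → K} {Φ' : K' → K'}
    (h : PL Φ) (h' : PL Φ') {M : Submodule A K} {M' : Submodule A' K'} (hM : M.FG)
    (hM' : M'.FG) {I : Ideal A} {I' : Ideal A'} (hI : I ≠ ⊥) (hI' : I' ≠ ⊥)
    (hs : St Φ (Col I M)) (hs' : St Φ' (Col I' M'))
    (H : ∀ d : ℕ, CDat Φ Φ' M M' I I' (JJ 2 d A) (JJ 2 d A')) :
    (toX h (Col I M) hs).P = (toX h' (Col I' M') hs').P := by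
  have hA := noeth (p := 2) (R := A)
  have hA' := noeth (p := 2) (R := A')
  obtain ⟨_, _, _, _, _, _, _, _, _, _, _, _, _, _, _, hK, hK', _⟩ := H 0
  obtain ⟨a, ha, hne⟩ := Submodule.exists_mem_ne_zero_of_ne_bot hI
  obtain ⟨a', ha', hne'⟩ := Submodule.exists_mem_ne_zero_of_ne_bot hI'
  have hf : (Col I M).FG :=
    FG_Col hM ha fun e => hne (hK.inj (by rw [e, map_zero]))
  have hf' : (Col I' M').FG :=
    FG_Col hM' ha' fun e => hne' (hK'.inj (by rw [e, map_zero]))
  refine P_cmp _ _ (Module.Finite.iff_fg.2 hf) (Module.Finite.iff_fg.2 hf') fun d => ?_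
  obtain ⟨R, L, _, _, _, _, _, _, _, _, φ, φ', ΦL, ΦL', u, hA1, hA2, hC1, hC2, hJ, hII, hL, hext,
    hext', hu, hst, hux⟩ := H d
  have hEx := hA1.Ex_Col (IsNoetherian.noetherian I) hI M
  have hEx' := hA2.Ex_Col (IsNoetherian.noetherian I') hI' M'
  have hstC : St ΦL (Ex L φ (Col I M)) := by
    rw [hEx]
    exact St_Col hL hst _
  have key : ∀ y : L, (u : L) * y ∈ Ex L φ (Col I M) ↔ y ∈ Ex L φ' (Col I' M') := by
    intro y
    rw [hEx, hEx', mem_Col, mem_Col, hII]
    refine forall₂_congr fun r _ => ?_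
    rw [← hux, mul_smul_comm]
  let e : Ex L φ' (Col I' M') ≃ₗ[R] Ex L φ (Col I M) :=
    { toFun := fun y => ⟨(u : L) * y.1, (key y.1).2 y.2⟩
      map_add' := fun x y => Subtype.ext (mul_add _ _ _)
      map_smul' := fun c x => Subtype.ext (mul_smul_comm _ _ _)
      invFun := fun y => ⟨(↑(u⁻¹) : L) * y.1, (key _).1 (by
        rw [Units.mul_inv_cancel_left]
        exact y.2)⟩
      left_inv := fun y => Subtype.ext (Units.inv_mul_cancel_left _ _)
      right_inv := fun y => Subtype.ext (Units.mul_inv_cancel_left _ _) }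
  have hfin : Finite (R ⧸ (JJ 2 d A).map φ) := by
    have h1 := finite_JJ (p := 2) (B := A) d
    let f : A →+* R ⧸ (JJ 2 d A).map φ := (Ideal.Quotient.mk _).comp φ
    have h2 : ∀ a ∈ JJ 2 d A, f a = 0 := fun a ha =>
      Ideal.Quotient.eq_zero_iff_mem.2 (Ideal.mem_map_of_mem φ ha)
    refine Finite.of_surjective (Ideal.Quotient.lift (JJ 2 d A) f h2) ?_
    intro r
    obtain ⟨r, rfl⟩ := Ideal.Quotient.mk_surjective r
    obtain ⟨b, hb⟩ := hC1.dense 1 r
    rw [pow_one] at hb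
    refine ⟨Ideal.Quotient.mk _ b, ?_⟩
    rw [Ideal.Quotient.lift_mk]
    exact ((Ideal.Quotient.mk_eq_mk_iff_sub_mem _ _).2 hb).symm
  refine ⟨R, inferInstance, inferInstance, hC1.noeth, φ, φ', (JJ 2 d A).map φ,
    toX hL (Ex L φ (Col I M)) hstC, io φ L (Col I M),
    e.toLinearMap.toAddMonoidHom.comp (io φ' L (Col I' M')), rfl, hJ.symm, hfin,
    Module.Finite.iff_fg.2 (FG_Ex hA1 hf), pro_Ex hA1 hC1.dense hC1.top _, ?_, ?_, ?_⟩
  · have := pro_equiv (pro_Ex hA2 hC2.dense hC2.top (Col I' M')) e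
    rw [← hJ] at this
    exact this
  · intro x
    exact Subtype.ext (hext x.1).symm
  · intro x
    refine Subtype.ext ?_
    change (u : L) * algebraMap K' L (Φ' x.1) = ΦL ((u : L) * algebraMap K' L x.1)
    rw [hu, hext']

end

end Pool.Agent.SuTR
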