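import Pool.Agent.Lib.MP_305fdd_al.Su.TR.Defs
import Pool.Agent.Lib.MP_305fdd_al.Fr.N.E.p_pro

/-!
# MP_305fdd_al, surface groups, block (TR): fractional modules and completions

`A` is a domain with field of fractions `K`, `φ : A → R` is flat, `L` is an overring of `R` and `K`.
`Ex φ L M` is the `R`-submodule of `L` generated by the `A`-submodule `M` of `K`.
-/

set_option autoImplicit false

namespace Pool.Agent.SuTR

open Pool.Agent.FrN Pool.Agent.FrNA Pool.Agent.F2Ch

/-- equational flatness -/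
def Fl {A R : Type} [CommRing A] [CommRing R] (φ : A →+* R) : Prop :=
  ∀ (n : ℕ) (b : Fin n → A) (r : Fin n → R), ∑ i, r i * φ (b i) = 0 →
    ∃ (m : ℕ) (s : Fin m → R) (c : Fin m → Fin n → A),
      (∀ i, r i = ∑ j, s j * φ (c j i)) ∧ ∀ j, ∑ i, c j i * b i = 0

/-- `K` is the field of fractions of `A`, `φ : A → R` is flat, `L` contains `R` and `K`. -/
structure Amb {A R : Type} [CommRing A] [CommRing R] (φ : A →+* R) (K L : Type) [Field K]
    [CommRing L] [Algebra A K] [Algebra R L] [Algebra K L] : Prop where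
  inj : Function.Injective (algebraMap A K)
  fr : ∀ x : K, ∃ a b : A, algebraMap A K b ≠ 0 ∧ x * algebraMap A K b = algebraMap A K a
  injR : Function.Injective (algebraMap R L)
  comm : ∀ a : A, algebraMap R L (φ a) = algebraMap K L (algebraMap A K a)
  flat : Fl φ

section

variable {A R : Type} [CommRing A] [CommRing R] {φ : A →+* R} {K L : Type} [Field K]
  [CommRing L] [Algebra A K] [Algebra R L] [Algebra K L]

theorem Fl.fin (h : Fl φ) {ι : Type} [Fintype ι] (b : ι → A) (r : ι → R)
    (hr : ∑ i, r i * φ (b i) = 0) :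
    ∃ (m : ℕ) (s : Fin m → R) (c : Fin m → ι → A),
      (∀ i, r i = ∑ j, s j * φ (c j i)) ∧ ∀ j, ∑ i, c j i * b i = 0 := by
  classical
  let e := Fintype.equivFin ι
  obtain ⟨m, s, c, h1, h2⟩ := h (Fintype.card ι) (fun i => b (e.symm i)) (fun i => r (e.symm i))
    (by rw [← hr]; exact Equiv.sum_comp e.symm (fun i => r i * φ (b i)))
  refine ⟨m, s, fun j i => c j (e i), fun i => ?_, fun j => ?_⟩
  · rw [← h1 (e i)]
    simp
  · rw [← h2 j, ← Equiv.sum_comp e]
    simp

/-- common denominators -/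
theorem Amb.den (h : Amb φ K L) {ι : Type} (F : Finset ι) (x : ι → K) :
    ∃ δ : A, algebraMap A K δ ≠ 0 ∧ ∀ i ∈ F, ∃ a : A, x i * algebraMap A K δ = algebraMap A K a := by
  classical
  induction F using Finset.induction_on with
  | empty => exact ⟨1, by rw [map_one]; exact one_ne_zero, fun i hi => absurd hi (Finset.notMem_empty i)⟩
  | insert i F hi ih =>
    obtain ⟨δ, h0, h1⟩ := ih
    obtain ⟨a, b, hb, hab⟩ := h.fr (x i)
    refine ⟨δ * b, by rw [map_mul]; exact mul_ne_zero h0 hb, fun k hk => ?_⟩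
    rcases Finset.mem_insert.1 hk with rfl | hk
    · exact ⟨δ * a, by rw [map_mul, map_mul, ← hab]; ring⟩
    · obtain ⟨a', ha'⟩ := h1 k hk
      exact ⟨a' * b, by rw [map_mul, map_mul, ← ha']; ring⟩

/-- a relation over `K` -/
theorem Amb.rel (h : Amb φ K L) {ι : Type} [Fintype ι] (x : ι → K) (r : ι → R)
    (hr : ∑ i, algebraMap R L (r i) * algebraMap K L (x i) = 0) :
    ∃ (m : ℕ) (s : Fin m → R) (c : Fin m → ι → A),
      (∀ i, r i = ∑ j, s j * φ (c j i)) ∧ ∀ j, ∑ i, c j i • x i = 0 := by
  obtain ⟨δ, h0, h1⟩ := h.den (Finset.univ : Finset ι) x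
  choose b hb using fun i => h1 i (Finset.mem_univ i)
  obtain ⟨m, s, c, h2, h3⟩ := h.flat.fin b r (h.injR (by
    rw [map_sum, map_zero]
    calc ∑ i, algebraMap R L (r i * φ (b i))
        = (∑ i, algebraMap R L (r i) * algebraMap K L (x i)) *
          algebraMap K L (algebraMap A K δ) := by
          rw [Finset.sum_mul]
          refine Finset.sum_congr rfl fun i _ => ?_
          rw [map_mul, h.comm, ← hb i, map_mul, mul_assoc]
      _ = 0 := by rw [hr, zero_mul]))
  refine ⟨m, s, c, h2, fun j => ?_⟩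
  have h4 : (∑ i, c j i • x i) * algebraMap A K δ = 0 := by
    rw [Finset.sum_mul]
    calc ∑ i, c j i • x i * algebraMap A K δ = ∑ i, algebraMap A K (c j i * b i) := by
          refine Finset.sum_congr rfl fun i _ => ?_
          rw [Algebra.smul_def, mul_assoc, hb i, map_mul]
      _ = 0 := by rw [← map_sum, h3 j, map_zero]
  rcases mul_eq_zero.1 h4 with h5 | h5
  · exact h5
  · exact absurd h5 h0

variable (φ L) in
/-- the `R`-submodule of `L` generated by `M` -/
def Ex (_ : A →+* R) (M : Submodule A K) : Submodule R L :=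
  Submodule.span R (algebraMap K L '' (M : Set K))

theorem mem_Ex_of (M : Submodule A K) {x : K} (hx : x ∈ M) : algebraMap K L x ∈ Ex L φ M :=
  Submodule.subset_span ⟨x, hx, rfl⟩

theorem Ex_mono {M N : Submodule A K} (h : M ≤ N) : Ex L φ M ≤ Ex L φ N :=
  Submodule.span_mono (Set.image_mono h)

/-- elements of `Ex φ L M` -/
theorem mem_Ex {M : Submodule A K} {y : L} : y ∈ Ex L φ M ↔
    ∃ (n : ℕ) (r : Fin n → R) (x : Fin n → K), (∀ i, x i ∈ M) ∧
      y = ∑ i, algebraMap R L (r i) * algebraMap K L (x i) := by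
  constructor
  · intro hy
    induction hy using Submodule.span_induction with
    | mem y hy =>
      obtain ⟨x, hx, rfl⟩ := hy
      exact ⟨1, fun _ => 1, fun _ => x, fun _ => hx, by simp⟩
    | zero => exact ⟨0, fun _ => 0, fun _ => 0, fun _ => M.zero_mem, by simp⟩
    | add y z _ _ hy hz =>
      obtain ⟨n, r, x, hx, rfl⟩ := hy
      obtain ⟨n', r', x', hx', rfl⟩ := hz
      refine ⟨n + n', Fin.append r r', Fin.append x x', fun i => ?_, ?_⟩
      · refine Fin.addCases (fun i => ?_) (fun i => ?_) i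
        · rw [Fin.append_left]; exact hx i
        · rw [Fin.append_right]; exact hx' i
      · rw [Fin.sum_univ_add]
        simp only [Fin.append_left, Fin.append_right]
    | smul c y _ hy =>
      obtain ⟨n, r, x, hx, rfl⟩ := hy
      refine ⟨n, fun i => c * r i, x, hx, ?_⟩
      rw [Finset.smul_sum]
      refine Finset.sum_congr rfl fun i _ => ?_
      rw [Algebra.smul_def, map_mul, mul_assoc]
  · rintro ⟨n, r, x, hx, rfl⟩
    refine Submodule.sum_mem _ fun i _ => ?_
    rw [← Algebra.smul_def]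
    exact Submodule.smul_mem _ _ (mem_Ex_of M (hx i))

/-- `{f | z f ∈ M}` -/
def Dv (z : K) (M : Submodule A K) : Submodule A K where
  carrier := {f | z * f ∈ M}
  zero_mem' := by rw [Set.mem_setOf_eq, mul_zero]; exact M.zero_mem
  add_mem' := by
    intro f g hf hg
    rw [Set.mem_setOf_eq, mul_add]
    exact M.add_mem hf hg
  smul_mem' := by
    intro c f hf
    rw [Set.mem_setOf_eq, mul_smul_comm]
    exact M.smul_mem c hf

theorem mem_Dv {z : K} {M : Submodule A K} {f : K} : f ∈ Dv z M ↔ z * f ∈ M := Iff.rfl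

/-- intersections -/
theorem Amb.cap (h : Amb φ K L) {V M : Submodule A K} {z : K} {y : L} (hy : y ∈ Ex L φ V)
    (hz : algebraMap K L z * y ∈ Ex L φ M) : y ∈ Ex L φ (V ⊓ Dv z M) := by
  obtain ⟨n, r, x, hx, rfl⟩ := mem_Ex.1 hy
  obtain ⟨n', r', x', hx', he⟩ := mem_Ex.1 hz
  obtain ⟨m, s, c, h1, h2⟩ := h.rel (ι := Fin n ⊕ Fin n') (Sum.elim (fun i => z * x i) x')
    (Sum.elim r (fun i => - r' i)) (by
      rw [Fintype.sum_sum_type]
      simp only [Sum.elim_inl, Sum.elim_inr]
      rw [Finset.mul_sum] at he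
      have h3 : ∑ i, algebraMap R L (r i) * algebraMap K L (z * x i) =
          ∑ i, algebraMap K L z * (algebraMap R L (r i) * algebraMap K L (x i)) := by
        refine Finset.sum_congr rfl fun i _ => ?_
        rw [map_mul]
        ring
      rw [h3, he, ← Finset.sum_add_distrib]
      refine Finset.sum_eq_zero fun i _ => ?_
      rw [map_neg]
      ring)
  have h4 : ∑ i, algebraMap R L (r i) * algebraMap K L (x i) =
      ∑ j, s j • algebraMap K L (∑ i, c j (Sum.inl i) • x i) := by
    calc ∑ i, algebraMap R L (r i) * algebraMap K L (x i)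
        = ∑ i, ∑ j, algebraMap R L (s j) *
            (algebraMap K L (c j (Sum.inl i) • x i)) := by
          refine Finset.sum_congr rfl fun i _ => ?_
          have := h1 (Sum.inl i)
          simp only [Sum.elim_inl] at this
          rw [this, map_sum, Finset.sum_mul]
          refine Finset.sum_congr rfl fun j _ => ?_
          rw [map_mul, h.comm, Algebra.smul_def, map_mul]
          ring
      _ = _ := by
          rw [Finset.sum_comm]
          refine Finset.sum_congr rfl fun j _ => ?_
          rw [Algebra.smul_def, map_sum, Finset.mul_sum]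
  rw [h4]
  refine Submodule.sum_mem _ fun j _ => Submodule.smul_mem _ _ (mem_Ex_of _ ⟨?_, ?_⟩)
  · exact V.sum_mem fun i _ => V.smul_mem _ (hx i)
  · change z * _ ∈ M
    have h5 := h2 j
    rw [Fintype.sum_sum_type] at h5
    simp only [Sum.elim_inl, Sum.elim_inr] at h5
    have h6 : z * ∑ i, c j (Sum.inl i) • x i = - ∑ i, c j (Sum.inr i) • x' i := by
      rw [eq_neg_iff_add_eq_zero, ← h5, Finset.mul_sum]
      congr 1
      refine Finset.sum_congr rfl fun i _ => ?_
      rw [mul_smul_comm]
    rw [h6]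
    exact M.neg_mem (M.sum_mem fun i _ => M.smul_mem _ (hx' i))

/-- colon modules, lists -/
theorem Amb.col_list (h : Amb φ K L) (M : Submodule A K) (l : List A) (V : Submodule A K) (y : L)
    (hy : y ∈ Ex L φ V) (hl : ∀ a ∈ l, φ a • y ∈ Ex L φ M) :
    ∃ V' : Submodule A K, V' ≤ V ∧ (∀ a ∈ l, ∀ f ∈ V', a • f ∈ M) ∧ y ∈ Ex L φ V' := by
  induction l with
  | nil => exact ⟨V, le_rfl, fun a ha => absurd ha List.not_mem_nil, hy⟩
  | cons a l ih =>
    obtain ⟨V', h1, h2, h3⟩ := ih fun b hb => hl b (List.mem_cons_of_mem _ hb)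
    have h4 := hl a List.mem_cons_self
    rw [Algebra.smul_def, h.comm] at h4
    refine ⟨V' ⊓ Dv (algebraMap A K a) M, inf_le_left.trans h1, ?_, h.cap h3 h4⟩
    intro b hb f hf
    rcases List.mem_cons.1 hb with rfl | hb
    · rw [Algebra.smul_def]
      exact hf.2
    · exact h2 b hb f hf.1

/-- division -/
theorem Amb.div (h : Amb φ K L) {M : Submodule A K} {z : K} (hz : z ≠ 0) {y : L}
    (hy : algebraMap K L z * y ∈ Ex L φ M) : y ∈ Ex L φ (Dv z M) := by
  obtain ⟨n, r, x, hx, he⟩ := mem_Ex.1 hy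
  refine mem_Ex.2 ⟨n, r, fun i => z⁻¹ * x i, fun i => ?_, ?_⟩
  · rw [mem_Dv, mul_inv_cancel_left₀ hz]
    exact hx i
  · calc y = algebraMap K L z⁻¹ * (algebraMap K L z * y) := by
          rw [← mul_assoc, ← map_mul, inv_mul_cancel₀ hz, map_one, one_mul]
      _ = _ := by
          rw [he, Finset.mul_sum]
          refine Finset.sum_congr rfl fun i _ => ?_
          rw [map_mul]
          ring

/-- colon modules -/
theorem Amb.Ex_Col (h : Amb φ K L) {I : Ideal A} (hI : I.FG) (h0 : I ≠ ⊥) (M : Submodule A K) :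
    Ex L φ (Col I M) = Col (I.map φ) (Ex L φ M) := by
  apply le_antisymm
  · refine Submodule.span_le.2 ?_
    rintro _ ⟨f, hf, rfl⟩
    intro r hr
    refine Submodule.span_induction (p := fun r _ => r • algebraMap K L f ∈ Ex L φ M)
      ?_ ?_ ?_ ?_ hr
    · rintro _ ⟨a, ha, rfl⟩
      change φ a • algebraMap K L f ∈ Ex L φ M
      rw [Algebra.smul_def, h.comm, ← map_mul, ← Algebra.smul_def]
      exact mem_Ex_of _ (hf a ha)
    · rw [zero_smul]
      exact Submodule.zero_mem _
    · intro r s _ _ hr hs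
      rw [add_smul]
      exact Submodule.add_mem _ hr hs
    · intro c r _ hr
      rw [smul_eq_mul, mul_smul]
      exact Submodule.smul_mem _ _ hr
  · intro y hy
    obtain ⟨a₀, ha₀, hne⟩ := Submodule.exists_mem_ne_zero_of_ne_bot h0
    obtain ⟨S, hS⟩ := hI
    have hz : algebraMap A K a₀ ≠ 0 := fun e => hne (h.inj (by rw [e, map_zero]))
    have h1 : y ∈ Ex L φ (Dv (algebraMap A K a₀) M) := by
      apply h.div hz
      rw [← h.comm, ← Algebra.smul_def]
      exact hy _ (Ideal.mem_map_of_mem φ ha₀)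
    obtain ⟨V', -, h3, h4⟩ := h.col_list M S.toList _ y h1 fun a ha => hy _
      (Ideal.mem_map_of_mem φ (by
        rw [← hS]
        exact Submodule.subset_span (Finset.mem_toList.1 ha)))
    refine Ex_mono ?_ h4
    intro f hf a ha
    rw [← hS] at ha
    refine Submodule.span_induction (p := fun a _ => a • f ∈ M) ?_ ?_ ?_ ?_ ha
    · intro a ha
      exact h3 a (Finset.mem_toList.2 ha) f hf
    · rw [zero_smul]
      exact M.zero_mem
    · intro r s _ _ hr hs
      rw [add_smul]
      exact M.add_mem hr hs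
    · intro c r _ hr
      rw [smul_eq_mul, mul_smul]
      exact M.smul_mem _ hr

end

end Pool.Agent.SuTR
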