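import Pool.Agent.Lib.MP_305fdd_al.Su.TR.Flat

/-!
# MP_305fdd_al, surface groups, block (TR): `M → R M` is the completion
-/

set_option autoImplicit false

namespace Pool.Agent.SuTR

open Pool.Agent.FrN Pool.Agent.FrNA Pool.Agent.F2Ch Pool.Agent.FrNE

section

variable {A R : Type} [CommRing A] [CommRing R] {φ : A →+* R} {K L : Type} [Field K]
  [CommRing L] [Algebra A K] [Algebra R L] [Algebra K L]

/-- the map `M → R M` -/
def io (φ : A →+* R) (L : Type) [CommRing L] [Algebra R L] [Algebra K L] (M : Submodule A K) :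
    M →+ Ex L φ M where
  toFun x := ⟨algebraMap K L x.1, mem_Ex_of M x.2⟩
  map_zero' := Subtype.ext (by simp)
  map_add' x y := Subtype.ext (by simp)

theorem coe_io (M : Submodule A K) (x : M) : (io φ L M x : L) = algebraMap K L x.1 := rfl

/-- elements of `I R M` -/
theorem mem_smul_Ex {M : Submodule A K} (I : Ideal R) {y : Ex L φ M}
    (hy : y ∈ (I • ⊤ : Submodule R (Ex L φ M))) :
    ∃ (n : ℕ) (r : Fin n → R) (x : Fin n → K), (∀ i, r i ∈ I) ∧ (∀ i, x i ∈ M) ∧
      (y : L) = ∑ i, algebraMap R L (r i) * algebraMap K L (x i) := by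
  refine Submodule.smul_induction_on hy ?_ ?_
  · intro r hr z _
    obtain ⟨n, s, x, hx, he⟩ := mem_Ex.1 z.2
    refine ⟨n, fun i => r * s i, x, fun i => I.mul_mem_right _ hr, hx, ?_⟩
    rw [Submodule.coe_smul, he, Finset.smul_sum]
    refine Finset.sum_congr rfl fun i _ => ?_
    rw [Algebra.smul_def, map_mul, mul_assoc]
  · rintro y z ⟨n, r, x, h1, h2, h3⟩ ⟨n', r', x', h1', h2', h3'⟩
    refine ⟨n + n', Fin.append r r', Fin.append x x', fun i => ?_, fun i => ?_, ?_⟩
    · refine Fin.addCases (fun i => ?_) (fun i => ?_) i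
      · rw [Fin.append_left]; exact h1 i
      · rw [Fin.append_right]; exact h1' i
    · refine Fin.addCases (fun i => ?_) (fun i => ?_) i
      · rw [Fin.append_left]; exact h2 i
      · rw [Fin.append_right]; exact h2' i
    · rw [Fin.sum_univ_add, Submodule.coe_add, h3, h3']
      simp only [Fin.append_left, Fin.append_right]

theorem pro_Ex (h : Amb φ K L) {J : Ideal A}
    (hd : ∀ (n : ℕ) (r : R), ∃ b, r - φ b ∈ (J.map φ) ^ n)
    (ht : ∀ (n : ℕ) (b : A), φ b ∈ (J.map φ) ^ n → b ∈ J ^ n) (M : Submodule A K) :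
    Pro φ J (J.map φ) (io φ L M) where
  lin a x := Subtype.ext (by
    rw [coe_io, Submodule.coe_smul, Submodule.coe_smul, coe_io, Algebra.smul_def,
      Algebra.smul_def, map_mul, h.comm])
  dense j y := by
    obtain ⟨n, r, x, hx, he⟩ := mem_Ex.1 y.2
    choose b hb using fun i => hd j (r i)
    refine ⟨∑ i, b i • ⟨x i, hx i⟩, ?_⟩
    have h1 : y - io φ L M (∑ i, b i • ⟨x i, hx i⟩) =
        ∑ i, (r i - φ (b i)) • io φ L M ⟨x i, hx i⟩ := by
      apply Subtype.ext
      rw [Submodule.coe_sub, he, coe_io]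
      simp only [Submodule.coe_sum, Submodule.coe_smul, coe_io, map_sum]
      rw [← Finset.sum_sub_distrib]
      refine Finset.sum_congr rfl fun i _ => ?_
      rw [Algebra.smul_def, Algebra.smul_def, map_mul, map_sub, sub_mul, h.comm]
    rw [h1]
    exact Submodule.sum_mem _ fun i _ => Submodule.smul_mem_smul (hb i) Submodule.mem_top
  top j := by
    refine ⟨j, fun x hx => ?_⟩
    obtain ⟨n, r, z, hr, hz, he⟩ := mem_smul_Ex _ hx
    rw [coe_io] at he
    obtain ⟨m, s, c, h1, h2⟩ := h.rel (ι := Option (Fin n)) (fun o => o.elim x.1 z)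
      (fun o => o.elim 1 fun i => - r i) (by
        rw [Fintype.sum_option]
        simp only [Option.elim_none, Option.elim_some, map_one, one_mul]
        rw [he, ← Finset.sum_add_distrib]
        refine Finset.sum_eq_zero fun i _ => ?_
        rw [map_neg]
        ring)
    choose b hb using fun i => hd j (s i)
    have h3 := h1 none
    simp only [Option.elim_none] at h3
    have h4 : 1 - ∑ i, b i * c i none ∈ J ^ j := by
      apply ht
      rw [map_sub, map_one, h3, map_sum, ← Finset.sum_sub_distrib]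
      refine Ideal.sum_mem _ fun i _ => ?_
      rw [map_mul, ← sub_mul]
      exact Ideal.mul_mem_right _ _ (hb i)
    have h5 : ∀ k, ∑ i, b i * c i (some k) ∈ J ^ j := by
      intro k
      apply ht
      have h6 := h1 (some k)
      simp only [Option.elim_some] at h6
      have h7 : φ (∑ i, b i * c i (some k)) = - ∑ i, (s i - φ (b i)) * φ (c i (some k)) - r k := by
        have h8 : ∑ i, (s i - φ (b i)) * φ (c i (some k)) =
            ∑ i, s i * φ (c i (some k)) - φ (∑ i, b i * c i (some k)) := by
          rw [map_sum, ← Finset.sum_sub_distrib]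
          refine Finset.sum_congr rfl fun i _ => ?_
          rw [map_mul]
          ring
        rw [h8, ← h6]
        ring
      rw [h7]
      exact Ideal.sub_mem _ (Ideal.neg_mem_iff _ |>.2 (Ideal.sum_mem _ fun i _ =>
        Ideal.mul_mem_right _ _ (hb i))) (hr k)
    have h6 : ∀ i, c i none • x + ∑ k, c i (some k) • (⟨z k, hz k⟩ : M) = 0 := by
      intro i
      apply Subtype.ext
      have h7 := h2 i
      rw [Fintype.sum_option] at h7
      simp only [Option.elim_none, Option.elim_some] at h7
      simpa using h7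
    have h7 : x = (1 - ∑ i, b i * c i none) • x -
        ∑ k, (∑ i, b i * c i (some k)) • (⟨z k, hz k⟩ : M) := by
      have h8 : ∑ i, b i • (c i none • x + ∑ k, c i (some k) • (⟨z k, hz k⟩ : M)) = 0 :=
        Finset.sum_eq_zero fun i _ => by rw [h6 i, smul_zero]
      have h9 : ∑ i, b i • (c i none • x + ∑ k, c i (some k) • (⟨z k, hz k⟩ : M)) =
          (∑ i, b i * c i none) • x + ∑ k, (∑ i, b i * c i (some k)) • (⟨z k, hz k⟩ : M) := by
        simp only [smul_add, Finset.smul_sum, Finset.sum_add_distrib, Finset.sum_smul, mul_smul]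
        rw [Finset.sum_comm]
      rw [h9] at h8
      refine sub_eq_zero.1 (Eq.trans ?_ h8)
      module
    rw [h7]
    exact Submodule.sub_mem _ (Submodule.smul_mem_smul h4 Submodule.mem_top)
      (Submodule.sum_mem _ fun k _ => Submodule.smul_mem_smul (h5 k) Submodule.mem_top)

end

end Pool.Agent.SuTR
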